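import Pool.Agent.Helper68.Fam.Goals

/-!
# Project FAM (MP_18808e_co), packet NORM2
-/

namespace NApexGraphs.Fam.Helper13

open SimpleGraph NApexGraphs NApexGraphs.Dom NApexGraphs.Fam

theorem gNORM2 : Goals.NORM2 := by
  intro V _ H P A B S h
  obtain ⟨P', hP', hc'⟩ := Finset.exists_subset_card_eq h.card
  have hAP : A ∩ P' ⊆ P' \ B := by
    intro x hx
    rw [Finset.mem_inter] at hx
    exact Finset.mem_sdiff.2 ⟨hx.2, fun hB => Finset.disjoint_left.1 h.dis hx.1 hB⟩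
  have h1 : (A ∩ P').card ≤ 3 := (Finset.card_le_card Finset.inter_subset_left).trans h.cA
  have h2 : 3 ≤ (P' \ B).card := by
    have := Finset.le_card_sdiff B P'
    have := h.cB
    omega
  obtain ⟨A', hA1, hA2, hA3⟩ := Finset.exists_subsuperset_card_eq hAP h1 h2
  have hBP : B ∩ P' ⊆ P' \ A' := by
    intro x hx
    rw [Finset.mem_inter] at hx
    exact Finset.mem_sdiff.2 ⟨hx.2, fun hA => (Finset.mem_sdiff.1 (hA2 hA)).2 hx.1⟩
  have h3 : (B ∩ P').card ≤ 3 := (Finset.card_le_card Finset.inter_subset_left).trans h.cB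
  have h4 : 3 ≤ (P' \ A').card := by
    have := Finset.le_card_sdiff A' P'
    omega
  obtain ⟨B', hB1, hB2, hB3⟩ := Finset.exists_subsuperset_card_eq hBP h3 h4
  refine ⟨P', A', B', ?_, hP', hc', fun x hx => (Finset.mem_sdiff.1 (hA2 hx)).1, fun x hx => (Finset.mem_sdiff.1 (hB2 hx)).1, hA3, hB3⟩
  refine ⟨hA3.le, hB3.le, ?_, h.cT, h.pair, hc'.ge, ?_⟩
  · rw [Finset.disjoint_right]
    intro x hx
    exact (Finset.mem_sdiff.1 (hB2 hx)).2
  · intro x hx y hy hxy hnA hnB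
    refine h.adj x (hP' hx) y (hP' hy) hxy ?_ ?_
    · rintro ⟨ha, hb⟩
      exact hnA ⟨hA1 (Finset.mem_inter.2 ⟨ha, hx⟩), hA1 (Finset.mem_inter.2 ⟨hb, hy⟩)⟩
    · rintro ⟨ha, hb⟩
      exact hnB ⟨hB1 (Finset.mem_inter.2 ⟨ha, hx⟩), hB1 (Finset.mem_inter.2 ⟨hb, hy⟩)⟩

end NApexGraphs.Fam.Helper13
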